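import Mathlib
import Pool.Agent.H78.GeoNil

set_option autoImplicit false

namespace Pool.Agent.Results.MP_12bcff_ag.Plane

open MvPolynomial Pool.Agent.H78.GeoNil

/-- Over every finite field there are a polynomial self-map T of the affine plane and a nonempty
closed subvariety Y, both defined over F, with Y geometrically nilpotent but not nilpotent. -/
theorem result (F : Type) [Field F] [Finite F] :
    ∃ (T : Fin 2 → MvPolynomial (Fin 2) F) (S : Set (MvPolynomial (Fin 2) F))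
      (t : (Fin 2 → AlgebraicClosure F) → (Fin 2 → AlgebraicClosure F))
      (Y : Set (Fin 2 → AlgebraicClosure F)),
      (∀ Q i, t Q i = aeval Q (T i)) ∧
      (∀ Q, Q ∈ Y ↔ ∀ h ∈ S, aeval Q h = 0) ∧
      Y.Nonempty ∧
      (∃ P, t P = P ∧ ∀ Q ∈ Y, ∃ k, 1 ≤ k ∧ t^[k] Q = P) ∧
      ¬ (∃ P, t P = P ∧ ∃ k, 1 ≤ k ∧ t^[k] '' Y = {P}) := by
  have hT : ∀ (Q : Fin 2 → AlgebraicClosure F) (i : Fin 2), t1 Q i =
      aeval Q ((![X 0 + X 1, X 1 * (X 0 + X 1)] : Fin 2 → MvPolynomial (Fin 2) F) i) := by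
    intro Q i; fin_cases i <;> simp [t1]
  refine ⟨![X 0 + X 1, X 1 * (X 0 + X 1)], {X 0}, t1, {Q | Q 0 = 0}, hT, by simp, ⟨0, rfl⟩,
    ⟨0, by ext i; fin_cases i <;> simp [t1], ?_⟩, ?_⟩
  · intro Q hQ
    obtain ⟨A, h1, h2, h3⟩ := fin_inv F ![X 0 + X 1, X 1 * (X 0 + X 1)] Q
    obtain ⟨n, hn⟩ := hits t1 A {a | a 0 + a 1 = 0} h1
      (fun a ha => by rw [funext (hT a)]; exact h3 a ha)
      (fun a b ha _ h => t1_inj a b ha h) Q h2
      (fun a ha h => ha ((congrFun h 0).trans hQ))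
    refine ⟨n + 1, by omega, ?_⟩
    rw [Function.iterate_succ_apply']
    have hn' : t1^[n] Q 0 + t1^[n] Q 1 = 0 := hn
    ext i; fin_cases i <;> simp [t1, hn']
  · rintro ⟨P, -, k, -, hk⟩
    obtain ⟨p, q, h, e⟩ := t1_poly (K := AlgebraicClosure F) k
    have : q = Polynomial.C (P 1) := by
      apply Polynomial.funext
      intro y
      have hy : t1^[k] ![0, y] ∈ ({P} : Set _) := hk ▸ ⟨![0, y], rfl, rfl⟩
      rw [e] at hy
      simpa using congrFun hy 1
    rw [this] at h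
    simp at h

end Pool.Agent.Results.MP_12bcff_ag.Plane
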